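import Pool.Agent.W558.WA.Stms
import Pool.Agent.W85.WD.Bun

/-! # Project AS: the projective line bundle of an Artin-Schreier normal form -/

set_option autoImplicit false
set_option linter.unusedVariables false
set_option linter.unusedSectionVars false

universe u

open Polynomial Pool.Agent.W558 Pool.Agent.W498.Tor Pool.Agent.W85.WD

namespace Pool.Agent.W305.WA

section base

variable {k L : Type u} [Field k] [Field L] [Algebra k L] {T I : Type}
  (M : LM (⊥ : Subalgebra k L) ⊤ T I) [Fintype I]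

/-- The coordinate rings of the intersections of two charts are integrally closed. -/
lemma int_mem (hnorm : WD_norm.{u}) (hF : Frc M) {p : ℕ} (hp : 1 < p) (t t' : T) {z b c : L}
    (hb : b ∈ BB2 M t t') (hc : c ∈ BB2 M t t') (hz : z ^ p - b * z = c) : z ∈ BB2 M t t' := by
  have := M.sm t
  have hs : Algebra.Smooth k (BB2 M t t') :=
    smooth_adj_inv (M.rt t t') (div_ne_zero (M.H0 _) (M.H0 _))
  have hn : IsIntegrallyClosed (BB2 M t t') := hnorm k (BB2 M t t')
  have hfr : IsFractionRing (BB2 M t t') L := by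
    refine IsFractionRing.of_field _ _ fun x => ?_
    obtain ⟨a, ha, b, hb, hb0, h1⟩ := hF t x
    refine ⟨⟨a, le_BB2 M t t' ha⟩, ⟨b, le_BB2 M t t' hb⟩, ?_⟩
    rw [h1]
    exact (div_eq_mul_inv _ _).symm
  have hi : IsIntegral (BB2 M t t') z := by
    refine ⟨X ^ p - (C ⟨b, hb⟩ * X + C ⟨c, hc⟩), ?_, ?_⟩
    · refine monic_X_pow_sub ?_
      refine lt_of_le_of_lt degree_linear_le ?_
      exact_mod_cast hp
    · rw [eval₂_sub, eval₂_pow, eval₂_X, eval₂_add, eval₂_mul, eval₂_C, eval₂_X, eval₂_C]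
      change z ^ p - (b * z + c) = 0
      rw [← hz]
      ring
  obtain ⟨w, hw⟩ := (IsIntegrallyClosed.isIntegral_iff (R := BB2 M t t')).1 hi
  rw [← hw]
  exact w.2

/-- The monomials. -/
lemma XM_pow {p : ℕ} (m : I → ℤ) (t : T) :
    XM M m t ^ p * XM M (fun i => -((p : ℤ) - 1) * m i) t = XM M m t := by
  rw [XM, XM, ← Finset.prod_pow, ← Finset.prod_mul_distrib]
  refine Finset.prod_congr rfl fun i _ => ?_
  rw [← zpow_natCast, ← zpow_mul, ← zpow_add₀ (M.x0 t i)]
  congr 1
  ring

variable {p : ℕ} [Fact p.Prime] [CharP k p] {f : L} {n : I → ℤ} {a h : T → L}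

lemma ediv_nonpos (hn : ∀ i, n i ≤ 0) (i : I) : n i / (p : ℤ) ≤ 0 :=
  Int.ediv_nonpos_of_nonpos_of_neg (hn i) (by
    have := (Fact.out : p.Prime).pos
    exact_mod_cast this)

/-- The differences of the coordinates. -/
lemma delta_mem' (hnorm : WD_norm.{u}) (hF : Frc M) (hN : NAS p M f n a h) (t t' : T) :
    (a t - a t') / XM M (fun i => n i / (p : ℤ)) t ∈ BB2 M t t' := by
  have hp := (Fact.out : p.Prime).one_lt
  have hpz : (1 : ℤ) < (p : ℤ) := by exact_mod_cast hp
  have : CharP L p := charP_of_injective_algebraMap (algebraMap k L).injective p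
  have hB : XM M (fun i => -((p : ℤ) - 1) * (n i / (p : ℤ))) t ∈ M.A t := by
    refine XM_mem M (fun i => ?_) t
    have h1 := ediv_nonpos (p := p) hN.n0 i
    nlinarith
  have e : ((a t - a t') / XM M (fun i => n i / (p : ℤ)) t) ^ p -
      XM M (fun i => -((p : ℤ) - 1) * (n i / (p : ℤ))) t *
        ((a t - a t') / XM M (fun i => n i / (p : ℤ)) t) =
      (XM M (fun i => n i / (p : ℤ)) t' / XM M (fun i => n i / (p : ℤ)) t) ^ p *
        XM M (fun i => n i % (p : ℤ)) t' * h t' - XM M (fun i => n i % (p : ℤ)) t * h t := by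
    have h1 := hN.eq t
    have h2 := hN.eq t'
    rw [prod_split (p := p) _ (M.x0 t)] at h1
    rw [prod_split (p := p) _ (M.x0 t')] at h2
    have h3 := XM_ne M (fun i => n i / (p : ℤ)) t
    have hX := XM_pow M (p := p) (fun i => n i / (p : ℤ)) t
    change f = a t ^ p - a t + XM M (fun i => n i / (p : ℤ)) t ^ p *
      XM M (fun i => n i % (p : ℤ)) t * h t at h1
    change f = a t' ^ p - a t' + XM M (fun i => n i / (p : ℤ)) t' ^ p *
      XM M (fun i => n i % (p : ℤ)) t' * h t' at h2
    generalize XM M (fun i => -((p : ℤ) - 1) * (n i / (p : ℤ))) t = B at hX hB ⊢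
    generalize XM M (fun i => n i / (p : ℤ)) t = x at h1 h3 hX ⊢
    generalize XM M (fun i => n i / (p : ℤ)) t' = x' at h2 ⊢
    have h4 := pow_ne_zero p h3
    have h5 : B * ((a t - a t') / x) = (a t - a t') / x ^ p := by
      rw [eq_div_iff h4, mul_assoc, mul_comm _ (x ^ p), ← mul_assoc, mul_comm B,
        hX, mul_div_cancel₀ _ h3]
    rw [h5, div_pow, div_pow, sub_pow_char, ← sub_div, div_eq_iff h4, sub_mul]
    have h6 : x' ^ p / x ^ p * XM M (fun i => n i % (p : ℤ)) t' * h t' * x ^ p =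
        x' ^ p * XM M (fun i => n i % (p : ℤ)) t' * h t' := by
      field_simp
    rw [h6]
    linear_combination h2 - h1
  have h5 : ∀ s, XM M (fun i => n i % (p : ℤ)) s ∈ M.A s := fun s =>
    XM_mem M (fun i => Int.emod_nonneg _ (by omega)) s
  refine int_mem M hnorm hF hp t t' (le_BB2 M t t' hB) ?_ e
  refine Subalgebra.sub_mem _ (Subalgebra.mul_mem _ (Subalgebra.mul_mem _ (Subalgebra.pow_mem _
    (XM_div_mem M _ t t').1 p) (le_BB2' M t t' (h5 t'))) (le_BB2' M t t' (hN.hA t')))
    (Subalgebra.mul_mem _ (le_BB2 M t t' (h5 t)) (le_BB2 M t t' (hN.hA t)))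

end base

section top

variable {k L N : Type u} [Field k] [Field L] [Field N] [Algebra k L] [Algebra k N]
  [Algebra L N] [IsScalarTower k L N] {T I : Type} (M : LM (⊥ : Subalgebra k L) ⊤ T I)

/-- The tangent vector along the coordinate. -/
lemma vert_TV {A : Subalgebra k L} {y : N} (hy : Tr (A.map (em k L N)) y) {κ : Type u}
    [Field κ] [Algebra k κ] (φ : adj (A.map (em k L N)) y →ₐ[k] κ) (c : κ) :
    ∃ E : TV φ, (∀ (a : L) (ha : a ∈ A) (h' : em k L N a ∈ adj (A.map (em k L N)) y),
      E.D ⟨em k L N a, h'⟩ = 0) ∧ ∀ h', E.D ⟨y, h'⟩ = c := by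
  obtain ⟨E, hE1, hE2⟩ := ext_pe hy φ (φ.comp (Subalgebra.inclusion (le_adj _ y)))
    (fun _ => rfl) (TV.zero _) c
  refine ⟨E, ?_, hE2⟩
  intro a ha h'
  rw [hE1 (em k L N a) ⟨a, ha, rfl⟩ h', TV.zero_D]

end top

theorem Bun.main (hnorm : WD_norm.{u}) : WA_bun.{u} := by
  intro p _ k L N _ _ _ _ _ _ _ _ T I G _ _ M f n a h g Γ hN hF hFn hnp Z hZ hNf Q hQ
  classical
  have hp : p.Prime := Fact.out
  have hpz : (0 : ℤ) < (p : ℤ) := by exact_mod_cast hp.pos
  have hcN : CharP N p := charP_of_injective_algebraMap (algebraMap k N).injective p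
  let m : I → ℤ := fun i => n i / (p : ℤ)
  let r : I → ℤ := fun i => n i % (p : ℤ)
  have hnmr : ∀ i, n i = (p : ℤ) * m i + r i := fun i => (Int.mul_ediv_add_emod _ _).symm
  have hr0 : ∀ i, 0 ≤ r i := fun i => Int.emod_nonneg _ hpz.ne'
  have hrp : ∀ i, r i < p := fun i => Int.emod_lt_of_pos _ hpz
  have hm0 : ∀ i, m i ≤ 0 := fun i => ediv_nonpos hN.n0 i
  let y : T → N := fun t => yc Z (a t) (XM M m t)
  let ρ : T → L := fun t => ∏ i, if n i < 0 then M.x t i else 1
  have hρA : ∀ t, ρ t ∈ M.A t := fun t => Subalgebra.prod_mem _ fun i _ => by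
    split_ifs
    · exact M.xA t i
    · exact Subalgebra.one_mem _
  have hX : ∀ t, XM M m t ≠ 0 := XM_ne M m
  have hXN : ∀ t, algebraMap L N (XM M m t) ≠ 0 := fun t => (_root_.map_ne_zero _).2 (hX t)
  have hZa : ∀ b : L, Z - algebraMap L N b ≠ 0 := by
    intro b h0
    apply hZ
    rw [sub_eq_zero.1 h0]
    exact isAlgebraic_algebraMap b
  have hy0 : ∀ t, y t ≠ 0 := fun t => div_ne_zero (hZa _) (hXN t)
  have hXy : ∀ t, algebraMap L N (XM M m t) * y t = Z - algebraMap L N (a t) := fun t =>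
    mul_div_cancel₀ _ (hXN t)
  have htrL : ∀ t, Transcendental L (y t) := fun t => transcendental_yc hZ (hX t)
  obtain ⟨N0, hG⟩ := exists_BD (mapLM (K := N) M) (y := y) hy0
    (fun t => tr_of_transcendental (htrL t))
    (fun t t' => algebraMap L N (XM M m t / XM M m t'))
    (fun t t' => algebraMap L N ((XM M m t / XM M m t') * ((a t - a t') / XM M m t)))
    (by
      intro t t'
      have h1 := hXN t
      have h2 := hXN t'
      change (Z - algebraMap L N (a t')) / algebraMap L N (XM M m t') =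
        algebraMap L N (XM M m t / XM M m t') *
          ((Z - algebraMap L N (a t)) / algebraMap L N (XM M m t)) + _
      rw [map_mul, map_div₀, map_div₀, map_sub]
      field_simp
      ring)
    (fun t t' => map_BB2 M (XM_div_mem M m t t').2)
    (fun t t' => map_BB2 M (Subalgebra.mul_mem _ (XM_div_mem M m t t').2
      (delta_mem' M hnorm hF hN t t')))
  -- membership in `Q`
  have hdeg : (X ^ p - X - C f : L[X]).natDegree = p := by
    have h1 : (X ^ p - X - C f : L[X]) = X ^ p - (X + C f) := by ring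
    rw [h1]
    refine natDegree_sub_eq_left_of_natDegree_lt ?_ |>.trans (natDegree_X_pow p)
    rw [natDegree_X_pow]
    refine lt_of_le_of_lt (natDegree_add_C.le.trans natDegree_X_le) hp.one_lt
  have hnd : ∀ P' : L[X], P' ≠ 0 → P'.natDegree < p → ¬ ((X ^ p - X - C f : L[X]) ∣ P') := by
    intro P' h0 hd hdvd
    have := Polynomial.natDegree_le_of_dvd hdvd h0
    rw [hdeg] at this
    omega
  have hnd1 : ¬ ((X ^ p - X - C f : L[X]) ∣ 1) := hnd 1 one_ne_zero (by
    rw [natDegree_one]; exact hp.pos)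
  have hQL : ∀ l : L, algebraMap L N l ∈ Q := fun l => (hQ _).2 ⟨C l, 1, hnd1, by simp⟩
  have hQZ : Z ∈ Q := (hQ _).2 ⟨X, 1, hnd1, by simp⟩
  have hQi : ∀ b : L, (Z - algebraMap L N b)⁻¹ ∈ Q := fun b => (hQ _).2 ⟨1, X - C b,
    hnd _ (X_sub_C_ne_zero b) (by rw [natDegree_X_sub_C]; exact hp.one_lt), by
      rw [map_sub, aeval_X, aeval_C, map_one, inv_mul_cancel₀ (hZa b)]⟩
  have hyQ : ∀ t, y t ∈ Q := by
    intro t
    change (Z - algebraMap L N (a t)) / algebraMap L N (XM M m t) ∈ Q
    rw [div_eq_mul_inv, ← map_inv₀]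
    exact Q.mul_mem (Q.sub_mem hQZ (hQL _)) (hQL _)
  have hyQ' : ∀ t, (y t)⁻¹ ∈ Q := by
    intro t
    change ((Z - algebraMap L N (a t)) / algebraMap L N (XM M m t))⁻¹ ∈ Q
    rw [inv_div, div_eq_mul_inv]
    exact Q.mul_mem (hQL _) (hQi _)
  have hzQ : ∀ t b, zz (y t) b ∈ Q ∧ (zz (y t) b)⁻¹ ∈ Q := by
    intro t b
    cases b
    · exact ⟨hyQ' t, by
        change (y t)⁻¹⁻¹ ∈ Q
        rw [inv_inv]; exact hyQ t⟩
    · exact ⟨hyQ t, hyQ' t⟩
  refine ⟨T × Bool, Option I, inferInstance, inferInstance, bunLM (mapLM (K := N) M) hG,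
    fun q => ly (y q.1) q.2, fun q => algebraMap L N (h q.1), fun q => algebraMap L N (ρ q.1),
    fun o => o.elim (p : ℤ) r, fun o => o.elim (-1) m, fun b o => o.elim 0 (Γ b),
    ⟨?_, ?_, ?_, ?_, ?_, ?_, ?_, ?_, ?_, ?_, ?_, ?_, ?_, ?_, ?_, ?_⟩, ?_, ?_⟩
  · -- yA
    rintro ⟨t, b⟩
    cases b
    · exact Subalgebra.one_mem _
    · exact self_mem_adj _ _
  · rintro ⟨t, b⟩
    cases b
    · exact one_ne_zero
    · exact hy0 t
  · rintro ⟨t, b⟩
    exact le_adj _ _ (mem_map_em (hN.hA t))
  · rintro ⟨t, b⟩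
    exact le_adj _ _ (mem_map_em (hρA t))
  · rintro ⟨t, b⟩
    refine adj_le ?_ (hzQ t b).1
    rintro _ ⟨z, _, rfl⟩
    exact hQL z
  · rintro ⟨t, b⟩ (_ | i)
    · change (zf (y t) b)⁻¹⁻¹ ∈ Q
      rw [inv_inv]
      cases b
      · exact hyQ t
      · exact Q.one_mem
    · change (algebraMap L N (M.x t i))⁻¹ ∈ Q
      rw [← map_inv₀]
      exact hQL _
  · rintro ⟨t, b⟩
    cases b
    · change (1 : N)⁻¹ ∈ Q
      rw [inv_one]
      exact Q.one_mem
    · exact hyQ' t
  · -- m0
    rintro (_ | i)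
    · change (-1 : ℤ) ≤ 0
      norm_num
    · exact hm0 i
  · -- cp
    rintro (_ | i)
    · exact le_rfl
    · exact (hrp i).le
  · -- cm
    rintro (_ | i) hi
    · change (-1 : ℤ) < 0
      norm_num
    · change 0 < r i at hi
      change m i < 0
      have h1 := hN.n0 i
      have h2 := hnmr i
      have h3 := hm0 i
      rcases h3.lt_or_eq with h4 | h4
      · exact h4
      · rw [h4] at h2
        omega
  · -- the equation
    rintro ⟨t, b⟩
    have hz := zf_ne (hy0 t) b
    have e1 : ∏ o, (bunLM (mapLM (K := N) M) hG).x (t, b) o ^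
        ((p : ℤ) * (fun o : Option I => o.elim (-1) m) o) =
        zf (y t) b ^ p * algebraMap L N (XM M m t) ^ p := by
      refine (prod_lx _ _ _ _).trans ?_
      congr 1
      · change (zf (y t) b)⁻¹ ^ ((p : ℤ) * (-1)) = _
        rw [inv_zpow', mul_neg_one, neg_neg, zpow_natCast]
      · rw [XM, map_prod, ← Finset.prod_pow]
        refine Finset.prod_congr rfl fun i _ => ?_
        change (algebraMap L N (M.x t i)) ^ ((p : ℤ) * m i) = _
        rw [map_zpow₀, ← zpow_natCast, ← zpow_mul, mul_comm]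
    have e2 : ∏ o, (bunLM (mapLM (K := N) M) hG).x (t, b) o ^
        ((fun o : Option I => o.elim (p : ℤ) r) o) =
        (zf (y t) b ^ p)⁻¹ * algebraMap L N (XM M r t) := by
      refine (prod_lx _ _ _ _).trans ?_
      congr 1
      · change (zf (y t) b)⁻¹ ^ (p : ℤ) = _
        rw [zpow_natCast, inv_pow]
      · rw [XM, map_prod]
        refine Finset.prod_congr rfl fun i _ => ?_
        change (algebraMap L N (M.x t i)) ^ r i = _
        rw [map_zpow₀]
    have e3 : ∏ o, (bunLM (mapLM (K := N) M) hG).x (t, b) o ^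
        (-((p : ℤ) - 1) * (fun o : Option I => o.elim (-1) m) o) =
        (zf (y t) b ^ p)⁻¹ * zf (y t) b *
          algebraMap L N (XM M (fun i => -((p : ℤ) - 1) * m i) t) := by
      refine (prod_lx _ _ _ _).trans ?_
      congr 1
      · change (zf (y t) b)⁻¹ ^ (-((p : ℤ) - 1) * (-1)) = _
        have e : -((p : ℤ) - 1) * (-1) = (p : ℤ) - 1 := by ring
        rw [e, zpow_sub₀ (inv_ne_zero hz), zpow_natCast, zpow_one, inv_pow, div_inv_eq_mul]
      · rw [XM, map_prod]
        refine Finset.prod_congr rfl fun i _ => ?_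
        change (algebraMap L N (M.x t i)) ^ (-((p : ℤ) - 1) * m i) = _
        rw [map_zpow₀]
    rw [e1, e2, e3]
    have h1 := hN.eq t
    rw [prod_split (p := p) _ (M.x0 t)] at h1
    change f = a t ^ p - a t + XM M m t ^ p * XM M r t * h t at h1
    have hB := congrArg (algebraMap L N) (XM_pow M (p := p) m t)
    rw [map_mul, map_pow] at hB
    have h2 : zf (y t) b ^ p * ly (y t) b ^ p = y t ^ p := by
      rw [← mul_pow, zf_mul_ly]
    have h2' : zf (y t) b * ly (y t) b = y t := zf_mul_ly _ _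
    have h3 : algebraMap L N (XM M m t) ^ p * y t ^ p = Z ^ p - algebraMap L N (a t) ^ p := by
      rw [← mul_pow, hXy, sub_pow_char]
    have h3' := hXy t
    have h4 : zf (y t) b ^ p * (zf (y t) b ^ p)⁻¹ = 1 := mul_inv_cancel₀ (pow_ne_zero _ hz)
    change Z ^ p - Z - algebraMap L N f = zf (y t) b ^ p * algebraMap L N (XM M m t) ^ p *
      (ly (y t) b ^ p - (zf (y t) b ^ p)⁻¹ * zf (y t) b *
          algebraMap L N (XM M (fun i => -((p : ℤ) - 1) * m i) t) * ly (y t) b -
        (zf (y t) b ^ p)⁻¹ * algebraMap L N (XM M r t) * algebraMap L N (h t))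
    rw [h1, map_add, map_sub, map_mul, map_mul, map_pow, map_pow]
    generalize algebraMap L N (XM M (fun i => -((p : ℤ) - 1) * m i) t) = B at hB ⊢
    generalize algebraMap L N (XM M m t) = x at hB h3 h3' ⊢
    generalize (zf (y t) b ^ p)⁻¹ = w at h4 ⊢
    linear_combination -h3 - x ^ p * h2 +
      x ^ p * algebraMap L N (XM M r t) * algebraMap L N (h t) * h4 + h3' +
      x * h2' + zf (y t) b * ly (y t) b * hB + x ^ p * B * zf (y t) b * ly (y t) b * h4
  · rintro ⟨t, b⟩
    exact snc_ox ((mapLM (K := N) M).xA t) ((mapLM (K := N) M).snc t) (hy0 t) b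
      ((hG.tr t).zz (hy0 t) b)
  · -- ri
    rintro ⟨t, b⟩ κ _ _ φ (_ | i) hi hφ
    · cases b
      · right
        refine ⟨hpz, ?_⟩
        change (1 : N)⁻¹ ∈ _
        rw [inv_one]
        exact Subalgebra.one_mem _
      · exfalso
        have e : (⟨(bunLM (mapLM (K := N) M) hG).x (t, true) none,
            (bunLM (mapLM (K := N) M) hG).xA (t, true) none⟩ :
            (bunLM (mapLM (K := N) M) hG).A (t, true)) = 1 := Subtype.ext inv_one
        rw [e, map_one] at hφ
        exact one_ne_zero hφ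
    · left
      have hni : n i < 0 := by
        rcases hi with hi | hi
        · change m i < 0 at hi
          have h2 := hnmr i
          have h3 := hrp i
          nlinarith
        · change r i < 0 at hi
          exact absurd hi (not_lt.2 (hr0 i))
      have e : (⟨algebraMap L N (ρ t), le_adj _ _ (mem_map_em (hρA t))⟩ :
          (bunLM (mapLM (K := N) M) hG).A (t, b)) =
          ⟨algebraMap L N (M.x t i), le_adj _ _ (mem_map_em (M.xA t i))⟩ *
          ⟨algebraMap L N (∏ j ∈ Finset.univ.erase i, if n j < 0 then M.x t j else 1),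
            le_adj _ _ (mem_map_em (Subalgebra.prod_mem _ fun j _ => by
              split_ifs
              · exact M.xA t j
              · exact Subalgebra.one_mem _))⟩ := by
        apply Subtype.ext
        change algebraMap L N (ρ t) = algebraMap L N _ * algebraMap L N _
        rw [← map_mul]
        congr 1
        change ∏ i, (if n i < 0 then M.x t i else 1) = _
        rw [← Finset.mul_prod_erase Finset.univ _ (Finset.mem_univ i), if_pos hni]
      refine (congrArg φ e).trans ?_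
      rw [map_mul]
      refine mul_eq_zero_of_left ?_ _
      exact hφ
  · -- logarithmic tangent vectors
    rintro ⟨t, b⟩ κ _ _ φ hφ
    let φ1 : M.A t →ₐ[k] κ := (AlgHom.comp φ (Subalgebra.inclusion (le_adj
      ((M.A t).map (em k L N)) (zz (y t) b)))).comp (eqv (K := N) (M.A t)).toAlgHom
    have hφ1 : ∏ i, φ1 ⟨if n i < 0 then M.x t i else 1, by
        split_ifs
        · exact M.xA t i
        · exact Subalgebra.one_mem _⟩ = 0 := by
      rw [← map_prod]
      refine Eq.trans (congrArg φ1 ?_) (show φ1 ⟨ρ t, hρA t⟩ = 0 from hφ)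
      apply Subtype.ext
      exact map_prod (M.A t).val _ _
    obtain ⟨i, _, hi⟩ := Finset.prod_eq_zero_iff.1 hφ1
    have hni : n i < 0 := by
      by_contra hcon
      have e : (⟨if n i < 0 then M.x t i else 1, by
          split_ifs
          exact Subalgebra.one_mem _⟩ : M.A t) = 1 := Subtype.ext (if_neg hcon)
      rw [e, map_one] at hi
      exact one_ne_zero hi
    have hxi : φ1 ⟨M.x t i, M.xA t i⟩ = 0 := by
      refine Eq.trans (congrArg φ1 ?_) hi
      exact Subtype.ext (if_pos hni).symm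
    obtain ⟨v, hv⟩ := hN.ln t κ φ1 ⟨i, hni, hxi⟩
    obtain ⟨E, hE1, hE2⟩ := lift_TV ((hG.tr t).zz (hy0 t) b) φ φ1 (fun _ => rfl) v.D
    have hE0 : ∀ z (hz : z ∈ adj ((M.A t).map (em k L N)) (zz (y t) b)), z = 1 →
        E.D ⟨z, hz⟩ = 0 := by
      rintro z hz rfl
      exact E.D_one
    have hcK : CharP κ p := charP_of_injective_algebraMap (algebraMap k κ).injective p
    have hr : ∀ i, ((r i : ℤ) : κ) = (n i : κ) := by
      intro i
      rw [hnmr i]
      push_cast
      rw [CharP.cast_eq_zero, zero_mul, zero_add]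
    refine ⟨⟨E, fun o => o.elim 0 (fun o => o.elim 0 v.e), ?_⟩, ?_⟩
    · rintro (_ | _ | i) ho
      · change _ = _ * (0 : κ)
        rw [mul_zero]
        cases b
        · exact hE0 _ _ rfl
        · exact hE2 _
      · change _ = _ * (0 : κ)
        rw [mul_zero]
        cases b
        · exact hE2 _
        · exact hE0 _ _ inv_one
      · exact (hE1 (M.x t i) (M.xA t i) ho).trans (v.hx i (M.xA t i))
    · have e1 : E.D ⟨algebraMap L N (h t), le_adj _ _ (mem_map_em (hN.hA t))⟩ +
          φ ⟨algebraMap L N (h t), le_adj _ _ (mem_map_em (hN.hA t))⟩ *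
            ∑ o : Option (Option I), (((o.elim 0 fun o => o.elim (p : ℤ) r : ℤ)) : κ) *
              (o.elim 0 (fun o => o.elim 0 v.e) : κ) = om v n (hN.hA t) := by
        rw [Fintype.sum_option, Fintype.sum_option]
        simp only [Option.elim_none, Option.elim_some, mul_zero, zero_add]
        rw [Finset.sum_congr rfl fun i _ => by rw [hr i]]
        congr 1
        exact hE1 (h t) (hN.hA t) _
      intro h0
      apply hv
      rw [← e1]
      exact h0
  · -- vt
    rintro ⟨t, b⟩ κ _ _ φ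
    cases b
    · left
      change (1 : N)⁻¹ ∈ _
      rw [inv_one]
      exact Subalgebra.one_mem _
    · right
      obtain ⟨E, hE1, hE2⟩ := vert_TV ((hG.tr t).zz (hy0 t) true) φ 1
      refine ⟨E, ?_, ?_, ?_⟩
      · intro h0
        exact one_ne_zero ((hE2 (self_mem_adj _ _)).symm.trans h0)
      · rintro (_ | i)
        · have e : (⟨(bunLM (mapLM (K := N) M) hG).x (t, true) none,
              (bunLM (mapLM (K := N) M) hG).xA (t, true) none⟩ :
              (bunLM (mapLM (K := N) M) hG).A (t, true)) = 1 := Subtype.ext inv_one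
          rw [e]
          exact E.D_one
        · exact hE1 (M.x t i) (M.xA t i) _
      · exact hE1 (h t) (hN.hA t) _
  · -- vl
    rintro ⟨t, b⟩ κ _ _ φ
    have hcK : CharP κ p := charP_of_injective_algebraMap (algebraMap k κ).injective p
    cases b
    · obtain ⟨E, hE1, hE2⟩ := vert_TV ((hG.tr t).zz (hy0 t) false) φ
        (-φ ⟨zz (y t) false, self_mem_adj _ _⟩)
      refine ⟨⟨E, fun o => o.elim 0 (fun o => o.elim (-1) fun _ => 0), ?_⟩, ?_, ?_, ?_⟩
      · rintro (_ | _ | i) ho
        · change _ = _ * (0 : κ)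
          rw [mul_zero]
          exact E.D_one
        · change _ = _ * (-1 : κ)
          rw [mul_neg_one]
          exact hE2 _
        · change _ = _ * (0 : κ)
          rw [mul_zero]
          exact hE1 (M.x t i) (M.xA t i) _
      · exact hE1 (h t) (hN.hA t) _
      · change ∑ o : Option I, (((o.elim (p : ℤ) r : ℤ)) : κ) * (o.elim (-1) fun _ => 0 : κ) = 0
        rw [Fintype.sum_option]
        simp [CharP.cast_eq_zero]
      · change (0 : κ) + ∑ o : Option I, (((o.elim (-1) m : ℤ)) : κ) *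
          (o.elim (-1) fun _ => 0 : κ) = 1
        rw [Fintype.sum_option]
        simp
    · obtain ⟨E, hE1, hE2⟩ := vert_TV ((hG.tr t).zz (hy0 t) true) φ
        (φ ⟨zz (y t) true, self_mem_adj _ _⟩)
      refine ⟨⟨E, fun o => o.elim 1 (fun _ => 0), ?_⟩, ?_, ?_, ?_⟩
      · rintro (_ | _ | i) ho
        · change _ = _ * (1 : κ)
          rw [mul_one]
          exact hE2 _
        · change _ = _ * (0 : κ)
          rw [mul_zero]
          have e : (⟨(bunLM (mapLM (K := N) M) hG).x (t, true) none, ho⟩ :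
              (bunLM (mapLM (K := N) M) hG).A (t, true)) = 1 := Subtype.ext inv_one
          exact (congrArg E.D e).trans E.D_one
        · change _ = _ * (0 : κ)
          rw [mul_zero]
          exact hE1 (M.x t i) (M.xA t i) _
      · exact hE1 (h t) (hN.hA t) _
      · change ∑ o : Option I, (((o.elim (p : ℤ) r : ℤ)) : κ) * (0 : κ) = 0
        simp
      · change (1 : κ) + ∑ o : Option I, (((o.elim (-1) m : ℤ)) : κ) * (0 : κ) = 1
        simp
  · -- fractions
    rintro ⟨t, b⟩ q hq
    change ∃ α ∈ adj ((M.A t).map (em k L N)) (zz (y t) b),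
      ∃ β ∈ adj ((M.A t).map (em k L N)) (zz (y t) b), β ≠ 0 ∧ β⁻¹ ∈ Q ∧ q * β = α
    set A' : Subalgebra k N := adj ((M.A t).map (em k L N)) (zz (y t) b)
    have hWL : ∀ l : L, Wf A' Q (algebraMap L N l) := by
      intro l
      obtain ⟨c, hc, d, hd, hd0, h1⟩ := hF t l
      refine ⟨algebraMap L N d, le_adj _ _ (mem_map_em hd), (_root_.map_ne_zero _).2 hd0, ?_, ?_⟩
      · rw [← map_inv₀]; exact hQL _
      · rw [← map_mul, h1, mul_comm, mul_assoc, inv_mul_cancel₀ hd0, mul_one]
        exact le_adj _ _ (mem_map_em hc)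
    have hWy : Wf A' Q (y t) := by
      cases b
      · refine ⟨(y t)⁻¹, self_mem_adj _ _, inv_ne_zero (hy0 t), ?_, ?_⟩
        · rw [inv_inv]; exact hyQ t
        · rw [inv_mul_cancel₀ (hy0 t)]
          exact A'.one_mem
      · refine ⟨1, A'.one_mem, one_ne_zero, ?_, ?_⟩
        · rw [inv_one]; exact Q.one_mem
        · rw [one_mul]
          exact self_mem_adj _ _
    have hWZ : Wf A' Q Z := by
      have e : Z = algebraMap L N (XM M m t) * y t + algebraMap L N (a t) := by
        rw [hXy, sub_add_cancel]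
      rw [e]
      exact ((hWL _).mul hWy).add (hWL _)
    obtain ⟨P, P', hP', h1⟩ := (hQ q).1 hq
    obtain ⟨d, hd, hd0, hdi, h2⟩ := Wf.aeval hWL hWZ P
    obtain ⟨e, he, he0, hei, h3⟩ := Wf.aeval hWL hWZ P'
    have hP0 : P' ≠ 0 := by
      rintro rfl
      exact hP' (dvd_zero _)
    have hZP : Polynomial.aeval Z P' ≠ 0 := fun h0 => hP0 (transcendental_iff.1 hZ _ h0)
    refine ⟨e * (d * Polynomial.aeval Z P), A'.mul_mem he h2,
      d * (e * Polynomial.aeval Z P'), A'.mul_mem hd h3,
      mul_ne_zero hd0 (mul_ne_zero he0 hZP), ?_, ?_⟩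
    · rw [mul_inv, mul_inv]
      refine Q.mul_mem hdi (Q.mul_mem hei ((hQ _).2 ⟨1, P', hP', ?_⟩))
      rw [inv_mul_cancel₀ hZP, map_one]
    · rw [← h1]; ring
  · rintro b ⟨t, c⟩
    obtain ⟨w, hw0, hw, hw', h1⟩ := hFn b t
    refine ⟨algebraMap L N w, (_root_.map_ne_zero _).2 hw0, le_adj _ _ (mem_map_em hw), ?_, ?_⟩
    · rw [← map_inv₀]
      exact le_adj _ _ (mem_map_em hw')
    · refine Eq.trans ?_ (congrArg _ (prod_lx _ _ _ _).symm)
      change algebraMap L N (g b) = algebraMap L N w *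
        ((zf (y t) c)⁻¹ ^ (0 : ℤ) * ∏ i, (algebraMap L N (M.x t i)) ^ (Γ b i))
      rw [h1, map_mul, map_prod, zpow_zero, one_mul]
      congr 1
      exact Finset.prod_congr rfl fun i _ => map_zpow₀ _ _ _

end Pool.Agent.W305.WA
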